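import Mathlib
import Pool.Agent.H2.TCh1

namespace Pool.Agent.Results.MP_24a371_gt.NotTransitive

open Pool.Agent.H2.TCh

/-- Being T-characterized is not transitive, even along a dually embedded subgroup. -/
theorem result : ∃ (X : Type) (_ : AddCommGroup X) (_ : TopologicalSpace X)
    (X₀ X₁ : AddSubgroup X), IsTopologicalAddGroup X ∧ T2Space X ∧ X₀ ≤ X₁ ∧
    (∀ χ : Dual X₁, ∃ ψ : Dual X, ∀ x : X₁, ψ x = χ x) ∧
    ChT (X₀.addSubgroupOf X₁) ∧ ChT X₁ ∧ ¬ ChT X₀ :=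
  ex_trans

end Pool.Agent.Results.MP_24a371_gt.NotTransitive
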